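import Pool.Agent.H73R2.Et.Main

/-!
# MP_7ff8c4_co, question Q1 (full answer)

For every integer `t ≥ 1` the class of `E_t`-free chordal bipartite graphs has bounded
clique-width. Hence the set of integers asked for in Q1 is the set of all `t ≥ 1`.

Definitions used: `E t` and `IsChordalBipartite` in `Pool/Agent/H73R2/Et/Defs.lean`, `CwBuilt`,
`CwLE`, `cliqueWidth` in `Pool/Agent/H175R2/Defs.lean`.
-/

set_option autoImplicit false

namespace Pool.Agent.Results.MP_7ff8c4_co.AllT

open Pool.Agent.H73R2.Et Pool.Agent.H175R2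

/-- The class of `E_t`-free chordal bipartite graphs has bounded clique-width. -/
def BoundedClass (t : ℕ) : Prop :=
  ∃ c : ℕ, ∀ (V : Type) [Finite V] (G : SimpleGraph V),
    IsChordalBipartite G → ¬ (E t).IsIndContained G → cliqueWidth G ≤ c

theorem result : {t : ℕ | 1 ≤ t ∧ BoundedClass t} = {t : ℕ | 1 ≤ t} := by
  ext t
  simp only [Set.mem_ofPred_eq, and_iff_left_iff_imp]
  exact fun ht => main t ht

end Pool.Agent.Results.MP_7ff8c4_co.AllT
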